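import Pool.Agent.H87.IS.Stmts

set_option autoImplicit false

namespace Pool.Agent.H87.IS

open MvPolynomial Pool.Agent.H39.MonoR Pool.Agent.H75.Mono Pool.Agent.H87.QF

namespace TORAux

variable {k : Type} [Field k] {σ : Type} {V : Type} [AddCommGroup V] [Module k V]

/-- the monomials of degree at least `N` kill `v` -/
def Bd (ρ : MvPolynomial σ k →ₐ[k] Module.End k V) (N : ℕ) (v : V) : Prop :=
  ∀ m : σ →₀ ℕ, N ≤ m.degree → ρ (monomial m 1) v = 0

theorem rr (ρ : MvPolynomial σ k →ₐ[k] Module.End k V) (p q : MvPolynomial σ k) (v : V) :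
    ρ p (ρ q v) = ρ (p * q) v := by
  rw [map_mul]
  rfl

theorem rc (ρ : MvPolynomial σ k →ₐ[k] Module.End k V) (p q : MvPolynomial σ k) (v : V) :
    ρ p (ρ q v) = ρ q (ρ p v) := by
  rw [rr, rr, mul_comm]

theorem Bd.mono {ρ : MvPolynomial σ k →ₐ[k] Module.End k V} {N N' : ℕ} {v : V} (h : Bd ρ N v)
    (hN : N ≤ N') : Bd ρ N' v := fun m hm => h m (hN.trans hm)

theorem Bd.rho {ρ : MvPolynomial σ k →ₐ[k] Module.End k V} {N : ℕ} {v : V} (h : Bd ρ N v)
    (p : MvPolynomial σ k) : Bd ρ N (ρ p v) := by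
  intro m hm
  rw [rc, h m hm, map_zero]

theorem Bd.der [DecidableEq σ] {ρ : MvPolynomial σ k →ₐ[k] Module.End k V}
    {D : σ → Module.End k V}
    (leib : ∀ i p v, D i (ρ p v) = ρ (pderiv i p) v + ρ p (D i v)) {N : ℕ} {v : V}
    (h : Bd ρ N v) (i : σ) : Bd ρ (N + 1) (D i v) := by
  intro m hm
  have h1 := leib i (monomial m 1) v
  rw [h m (by omega), map_zero, pderiv_monomial] at h1
  have h2 : ρ (monomial (m - Finsupp.single i 1) (1 * (m i : k))) v = 0 := by
    by_cases hi : m i = 0
    · rw [hi, Nat.cast_zero, mul_zero, monomial_zero, map_zero]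
      rfl
    · have h3 : Finsupp.single i 1 ≤ m := by
        rw [Finsupp.single_le_iff]
        omega
      have h4 : (m - Finsupp.single i 1).degree + 1 = m.degree := by
        have h5 : (m - Finsupp.single i 1) + Finsupp.single i 1 = m := tsub_add_cancel_of_le h3
        have h6 := congrArg Finsupp.degree h5
        rw [map_add, Finsupp.degree_single] at h6
        exact h6
      have h7 : (monomial (m - Finsupp.single i 1) (1 * (m i : k)) : MvPolynomial σ k) =
          (m i : k) • monomial (m - Finsupp.single i 1) 1 := by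
        rw [smul_monomial, smul_eq_mul, one_mul, mul_one]
      rw [h7, map_smul, LinearMap.smul_apply, h _ (by omega), smul_zero]
  rw [h2, zero_add] at h1
  exact h1.symm

/-- the annihilator of `v` -/
def ann (ρ : MvPolynomial σ k →ₐ[k] Module.End k V) (v : V) : Ideal (MvPolynomial σ k) where
  carrier := {p | ρ p v = 0}
  add_mem' := by
    intro p q hp hq
    change ρ (p + q) v = 0
    rw [map_add, LinearMap.add_apply, hp, hq, add_zero]
  zero_mem' := by
    change ρ 0 v = 0
    rw [map_zero]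
    rfl
  smul_mem' := by
    intro p q hq
    change ρ (p • q) v = 0
    rw [smul_eq_mul, ← rr, hq, map_zero]

theorem mem_ann (ρ : MvPolynomial σ k →ₐ[k] Module.End k V) (v : V) (p : MvPolynomial σ k) :
    p ∈ ann ρ v ↔ ρ p v = 0 := Iff.rfl

/-- the submodule `Γ` -/
def Gam (ρ : MvPolynomial σ k →ₐ[k] Module.End k V) : Submodule k V where
  carrier := {v | ∃ N, Bd ρ N v}
  add_mem' := by
    rintro v w ⟨N, hN⟩ ⟨M, hM⟩
    refine ⟨max N M, fun m hm => ?_⟩
    rw [map_add, hN m (le_trans (le_max_left _ _) hm), hM m (le_trans (le_max_right _ _) hm),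
      add_zero]
  zero_mem' := ⟨0, fun m _ => map_zero _⟩
  smul_mem' := by
    rintro a v ⟨N, hN⟩
    refine ⟨N, fun m hm => ?_⟩
    rw [map_smul, hN m hm, smul_zero]

theorem rho_mem (ρ : MvPolynomial σ k →ₐ[k] Module.End k V) (p : MvPolynomial σ k) :
    ∀ v ∈ Gam ρ, ρ p v ∈ Gam ρ := by
  rintro v ⟨N, hN⟩
  exact ⟨N, hN.rho p⟩

/-- the restriction of `ρ` -/
noncomputable def rest (ρ : MvPolynomial σ k →ₐ[k] Module.End k V) :
    MvPolynomial σ k →ₐ[k] Module.End k (Gam ρ) where
  toFun := fun p => (ρ p).restrict (rho_mem ρ p)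
  map_one' := by
    ext v
    change ρ 1 v.1 = v.1
    rw [map_one]
    rfl
  map_mul' := by
    intro p q
    ext v
    change ρ (p * q) v.1 = ρ p (ρ q v.1)
    rw [rr]
  map_zero' := by
    ext v
    change ρ 0 v.1 = 0
    rw [map_zero]
    rfl
  map_add' := by
    intro p q
    ext v
    change ρ (p + q) v.1 = ρ p v.1 + ρ q v.1
    rw [map_add]
    rfl
  commutes' := by
    intro a
    ext v
    change ρ (algebraMap k _ a) v.1 = a • v.1
    rw [AlgHom.commutes]
    rfl

theorem rest_apply (ρ : MvPolynomial σ k →ₐ[k] Module.End k V) (p : MvPolynomial σ k)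
    (v : Gam ρ) : ((rest ρ p v : Gam ρ) : V) = ρ p v.1 := rfl

theorem null [IsAlgClosed k] [Fintype σ] [DecidableEq σ] (I : Ideal (MvPolynomial σ k))
    (hI : zeroLocus k I ⊆ {0}) :
    ∃ N : ℕ, ∀ m : σ →₀ ℕ, N ≤ m.degree → monomial m (1 : k) ∈ I := by
  have h1 : ∀ i : σ, ∃ e : ℕ, (X i : MvPolynomial σ k) ^ e ∈ I := by
    intro i
    have h2 : (X i : MvPolynomial σ k) ∈ vanishingIdeal k (zeroLocus k I) := by
      rw [mem_vanishingIdeal_iff]
      intro x hx
      have h3 : x = 0 := hI hx
      rw [h3]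
      simp
    rw [vanishingIdeal_zeroLocus_eq_radical] at h2
    exact h2
  choose e he using h1
  refine ⟨∑ i, e i + 1, ?_⟩
  intro m hm
  have h4 : ∃ i, e i < m i := by
    by_contra hcon
    push Not at hcon
    have h5 : m.degree ≤ ∑ i, e i := by
      rw [Finsupp.degree_eq_sum]
      exact Finset.sum_le_sum fun i _ => hcon i
    omega
  obtain ⟨i, hi⟩ := h4
  have h6 : Finsupp.single i (e i) ≤ m := by
    rw [Finsupp.single_le_iff]
    omega
  have h7 : (monomial m (1 : k)) = monomial (m - Finsupp.single i (e i)) 1 * X i ^ e i := by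
    rw [X_pow_eq_monomial, monomial_mul, tsub_add_cancel_of_le h6, one_mul]
  rw [h7]
  exact I.mul_mem_left _ (he i)

end TORAux

open TORAux in
theorem TOR : TORStmt := by
  classical
  intro k _ _ _ σ _ _ F s hs hcrit hSR
  obtain ⟨c, hc0, hci⟩ := hSR
  have hI : zeroLocus k (Ideal.span ({F} ∪ Set.range fun i => pderiv i F)) ⊆ {0} := by
    intro x hx
    apply hcrit
    rw [mem_zeroLocus_iff] at hx
    refine ⟨?_, fun i => ?_⟩
    · have h := hx F (Ideal.subset_span (Or.inl rfl))
      rwa [aeval_eq_eval] at h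
    · have h := hx (pderiv i F) (Ideal.subset_span (Or.inr ⟨i, rfl⟩))
      rwa [aeval_eq_eval] at h
  obtain ⟨N0, hN0⟩ := null _ hI
  have hkill : ∀ v : c.V, c.ρ F v = 0 → (∀ i, c.ρ (pderiv i F) v = 0) → Bd c.ρ N0 v := by
    intro v h1 h2 m hm
    have h3 : Ideal.span ({F} ∪ Set.range fun i => pderiv i F) ≤ ann c.ρ v := by
      rw [Ideal.span_le]
      rintro p (rfl | ⟨i, rfl⟩)
      · exact h1
      · exact h2 i
    exact h3 (hN0 m hm)
  have he : ∀ j, ∃ N, Bd c.ρ N (c.e j) := by
    intro j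
    induction j with
    | zero => exact ⟨N0, hkill _ hc0 hci⟩
    | succ j ih =>
      obtain ⟨N, hN⟩ := ih
      refine ⟨N + 1 + N0, ?_⟩
      intro m hm
      obtain ⟨a, ham, ha⟩ := Finsupp.exists_le_degree_eq m (N + 1) (by omega)
      have hb : N0 ≤ (m - a).degree := by
        have h5 : (m - a) + a = m := tsub_add_cancel_of_le ham
        have h6 := congrArg Finsupp.degree h5
        rw [map_add] at h6
        omega
      have hm2 : (monomial m (1 : k)) = monomial (m - a) 1 * monomial a 1 := by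
        rw [monomial_mul, tsub_add_cancel_of_le ham, one_mul]
      rw [hm2, ← rr]
      refine hkill _ ?_ ?_ _ hb
      · rw [rc, c.mul]
        exact hN a (by omega)
      · intro i
        rw [rc]
        have h7 := (hN.der c.leib i) a (by omega)
        rw [c.der, map_smul] at h7
        have h8 : (-((s : k) + j)) ≠ 0 := by
          rw [neg_ne_zero]
          have h9 : (0 : ℚ) < s + j := add_pos_of_pos_of_nonneg hs (Nat.cast_nonneg j)
          have h10 : ((s + j : ℚ) : k) ≠ 0 := by
            rw [Rat.cast_ne_zero]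
            exact h9.ne'
          rw [Rat.cast_add, Rat.cast_natCast] at h10
          exact h10
        exact (smul_eq_zero.1 h7).resolve_left h8
  have hD : ∀ i, ∀ v ∈ Gam c.ρ, c.D i v ∈ Gam c.ρ := by
    rintro i v ⟨N, hN⟩
    exact ⟨N + 1, hN.der c.leib i⟩
  refine ⟨{ V := Gam c.ρ, ρ := rest c.ρ, D := fun i => (c.D i).restrict (hD i),
            leib := ?_, e := fun j => ⟨c.e j, he j⟩, mul := ?_, der := ?_, ne := ?_ }, ?_, ?_, ?_⟩
  · intro i p v
    apply Subtype.ext
    exact c.leib i p v.1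
  · intro j
    apply Subtype.ext
    exact c.mul j
  · intro i j
    apply Subtype.ext
    exact c.der i j
  · intro h
    exact c.ne (congrArg Subtype.val h)
  · apply Subtype.ext
    exact hc0
  · intro i
    apply Subtype.ext
    exact hci i
  · rintro ⟨v, N, hN⟩
    exact ⟨N, fun m hm => Subtype.ext (hN m hm)⟩

end Pool.Agent.H87.IS
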